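import Pool.Agent.helper50.MA.Spec1

set_option autoImplicit false

open MeasureTheory Set Filter Topology Complex
open scoped ContDiff Real

namespace MAP

theorem A7_disc_sub {x ξ : C2} {r : ℝ} (h : ‖ξ‖ < r) : disc x ξ ⊆ Metric.ball x r := by
  rintro y ⟨ζ, hζ, rfl⟩
  rw [Metric.mem_ball, dist_eq_norm, add_sub_cancel_left, norm_smul]
  calc ‖ζ‖ * ‖ξ‖ ≤ 1 * ‖ξ‖ := mul_le_mul_of_nonneg_right hζ (norm_nonneg _)
    _ = ‖ξ‖ := one_mul _
    _ < r := h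

theorem A7_circle_mem (x ξ : C2) (θ : ℝ) : x + cexp (θ * I) • ξ ∈ disc x ξ :=
  ⟨cexp (θ * I), by rw [Complex.norm_exp_ofReal_mul_I], rfl⟩

theorem A7_cont {U : Set C2} {u : C2 → ℝ} (hu : ContinuousOn u U) {x ξ : C2}
    (h : disc x ξ ⊆ U) : Continuous (fun θ : ℝ => u (x + cexp (θ * I) • ξ)) := by
  have h1 : Continuous (fun θ : ℝ => x + cexp (θ * I) • ξ) := by fun_prop
  exact hu.comp_continuous h1 (fun θ => h (A7_circle_mem x ξ θ))

theorem A7_mean_mono {U : Set C2} {u w : C2 → ℝ} (hu : ContinuousOn u U) (hw : ContinuousOn w U)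
    (huw : ∀ x ∈ U, u x ≤ w x) {x ξ : C2} (h : disc x ξ ⊆ U) : mean u x ξ ≤ mean w x ξ := by
  unfold mean
  have hpi : (0 : ℝ) ≤ 2 * π := by positivity
  refine mul_le_mul_of_nonneg_left ?_ (inv_nonneg.2 hpi)
  apply intervalIntegral.integral_mono_on hpi
  · exact (A7_cont hu h).intervalIntegrable _ _
  · exact (A7_cont hw h).intervalIntegrable _ _
  · intro θ _
    exact huw _ (h (A7_circle_mem x ξ θ))

theorem A7 (h4 : A4_stmt) : A7_stmt := by
  intro U U' u w hU hU' hsub hu hwc hw huw heq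
  apply h4 U w hU hwc
  intro x hx
  by_cases hx' : x ∈ U'
  · obtain ⟨r, hr, hb⟩ := Metric.isOpen_iff.1 hU' x hx'
    exact ⟨r, hr, fun ξ hξ => hw.2 x ξ ((A7_disc_sub hξ).trans hb)⟩
  · obtain ⟨r, hr, hb⟩ := Metric.isOpen_iff.1 hU x hx
    refine ⟨r, hr, fun ξ hξ => ?_⟩
    have hd : disc x ξ ⊆ U := (A7_disc_sub hξ).trans hb
    rw [heq x hx hx']
    exact (hu.2 x ξ hd).trans (A7_mean_mono hu.1 hwc huw hd)

end MAP

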