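import Pool.Agent.helper50.MA.SpecF

set_option autoImplicit false

open MeasureTheory Set Filter Topology
open scoped ContDiff Real

namespace MAP

theorem F7_int {X : Type} [MeasurableSpace X] (ν ν0 : Measure X)
    [IsFiniteMeasure ν] [IsFiniteMeasure ν0] (F Z : Set X) (hF : MeasurableSet F) (hZ : MeasurableSet Z)
    (l : X → ℝ) (B : ℝ) (hl : ∀ x, 0 ≤ l x) (hlB : ∀ x ∈ F, l x ≤ B) (hi : Integrable l ν)
    (hi0 : Integrable l ν0) (hnull : ∀ᵐ x ∂ν, x ∈ F ∨ x ∈ Z)
    (hcon : ∀ A, MeasurableSet A → A ⊆ Z → ν.real A ≤ ν0.real A) :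
    ∫ x, l x ∂ν ≤ B * ν.real F + ∫ x, l x ∂ν0 := by
  have hle : ν.restrict Fᶜ ≤ ν0 := by
    rw [Measure.le_iff]
    intro A hA
    rw [Measure.restrict_apply hA]
    have h1 : ν (A ∩ Fᶜ) ≤ ν (A ∩ Z) := by
      apply measure_mono_ae
      filter_upwards [hnull] with x hx
      rintro ⟨h1, h2⟩
      exact ⟨h1, hx.resolve_left h2⟩
    have h2 : ν (A ∩ Z) ≤ ν0 (A ∩ Z) := by
      have := hcon (A ∩ Z) (hA.inter hZ) inter_subset_right
      rwa [measureReal_def, measureReal_def,
        ENNReal.toReal_le_toReal (measure_ne_top _ _) (measure_ne_top _ _)] at this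
    exact h1.trans (h2.trans (measure_mono inter_subset_left))
  have h1 : ∫ x in F, l x ∂ν ≤ B * ν.real F := by
    have : ∫ x in F, l x ∂ν ≤ ∫ _ in F, B ∂ν := by
      apply setIntegral_mono_on hi.integrableOn _ hF hlB
      exact integrable_const _
    refine this.trans ?_
    rw [setIntegral_const, smul_eq_mul, mul_comm]
  have h2 : ∫ x in Fᶜ, l x ∂ν ≤ ∫ x, l x ∂ν0 :=
    integral_mono_measure hle (Eventually.of_forall hl) hi0
  rw [← integral_add_compl hF hi]
  exact add_le_add h1 h2

theorem F7 (h3 : F3_stmt) : F7_stmt := by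
  intro X _ _ _ _ _ _ T μ cd f hf hf0 N A hN hA
  have h0 : (fun _ : X => (0 : ℝ)) ∈ T.C0 := T.ps_c0 (T.const_ps 0)
  have hAN : 0 ≤ A * N := by positivity
  obtain ⟨D, hD⟩ : ∃ D, D = T.ld cd.p := ⟨_, rfl⟩
  rw [← hD]
  have hfc : Continuous f := T.cont f hf
  let k : X → ℝ := fun x => min 1 (max 0 (-N + 1 - f x))
  let E : ℝ := Real.exp (-2 * (A * N + 1))
  have hE : 0 < E := Real.exp_pos _
  let b : X → ℝ := fun x => min 1 (max 0 (A * N + 1 + (1 / 2) * Real.log (max (cd.S x) E)))
  have hk0 : ∀ x, 0 ≤ k x := fun x => le_min zero_le_one (le_max_left _ _)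
  have hk1 : ∀ x, k x ≤ 1 := fun x => min_le_left _ _
  have hb0 : ∀ x, 0 ≤ b x := fun x => le_min zero_le_one (le_max_left _ _)
  have hb1 : ∀ x, b x ≤ 1 := fun x => min_le_left _ _
  have hkc : Continuous k := by
    show Continuous (fun x => min 1 (max 0 (-N + 1 - f x)))
    fun_prop
  have hbc : Continuous b := by
    have h1 : Continuous (fun x => Real.log (max (cd.S x) E)) := by
      apply Continuous.log
      · exact cd.S_cont.max continuous_const
      · intro x
        exact (lt_of_lt_of_le hE (le_max_right _ _)).ne'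
    show Continuous (fun x => min 1 (max 0 (A * N + 1 + (1 / 2) * Real.log (max (cd.S x) E))))
    fun_prop
  let o : X → ℝ := fun x => -(D.e0 * D.q x) * (k x * b x)
  have hoc : Continuous o := by
    have := D.q_cont
    show Continuous (fun x => -(D.e0 * D.q x) * (k x * b x))
    fun_prop
  have he0 := D.e0_pos
  have hkb0 : ∀ x, 0 ≤ k x * b x := fun x => mul_nonneg (hk0 x) (hb0 x)
  have hkb1 : ∀ x, k x * b x ≤ 1 := fun x => mul_le_one₀ (hk1 x) (hb0 x) (hb1 x)
  have heq0 : ∀ x, 0 ≤ D.e0 * D.q x := fun x => mul_nonneg he0.le (D.q_nonneg x)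
  have hψo : ∀ x, -(D.e0 * D.q x) ≤ o x := by
    intro x
    show -(D.e0 * D.q x) ≤ -(D.e0 * D.q x) * (k x * b x)
    nlinarith [hkb1 x, heq0 x]
  have ho0 : ∀ x, o x ≤ 0 := by
    intro x
    show -(D.e0 * D.q x) * (k x * b x) ≤ 0
    nlinarith [hkb0 x, heq0 x]
  obtain ⟨g, hg, hg1, hg2, hg3, _, hg5⟩ := T.obst {x | D.d x < D.r1} (D.ball D.r1 D.r1_pos le_rfl)
    _ D.nq_mem o hoc (fun x _ => hψo x)
  have hgc : Continuous g := T.cont g hg
  -- off the ball
  have hoff : ∀ x, x ∉ {x | D.d x < D.r1} → g x = 0 := by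
    intro x hx
    have hx' : D.r1 ≤ D.d x := not_lt.1 hx
    rw [hg2 x hx, D.q_zero x hx']
    simp
  have hgo : ∀ x, g x ≤ o x := by
    intro x
    by_cases hx : x ∈ {x | D.d x < D.r1}
    · exact hg3 x hx
    · have hx' : D.r1 ≤ D.d x := not_lt.1 hx
      rw [hoff x hx]
      show 0 ≤ -(D.e0 * D.q x) * (k x * b x)
      rw [D.q_zero x hx']
      simp
  have hge : ∀ x, -D.e0 ≤ g x := by
    intro x
    have h1 := hg1 x
    have h2 : D.e0 * D.q x ≤ D.e0 * 1 := mul_le_mul_of_nonneg_left (D.q_le x) he0.le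
    have h3 : -(D.e0 * D.q x) ≤ g x := h1
    linarith
  have hg0 : ∀ x, g x ≤ 0 := fun x => (hgo x).trans (ho0 x)
  refine ⟨g, hg, hge, hg0, ?_, ?_⟩
  · intro x hd hfx hS
    apply le_antisymm _ (hge x)
    refine (hgo x).trans ?_
    have hq : D.q x = 1 := D.q_one x hd
    have hk : k x = 1 := by
      apply min_eq_left
      exact le_max_of_le_right (by linarith)
    have hb : b x = 1 := by
      apply min_eq_left
      apply le_max_of_le_right
      have h1 : Real.exp (-2 * (A * N)) ≤ max (cd.S x) E := hS.trans (le_max_left _ _)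
      have h2 : -2 * (A * N) ≤ Real.log (max (cd.S x) E) := by
        rw [Real.le_log_iff_exp_le (lt_of_lt_of_le hE (le_max_right _ _))]
        exact h1
      linarith
    show -(D.e0 * D.q x) * (k x * b x) ≤ -D.e0
    rw [hq, hk, hb]
    simp
  -- the measure estimate
  have hfin : IsFiniteMeasure (T.M g g) := T.fin g hg g hg
  have hfin0 : IsFiniteMeasure (T.M (fun _ => 0) (fun _ => 0)) := T.fin _ h0 _ h0
  have hint : ∀ (ν : Measure X) [IsFiniteMeasure ν] (h : X → ℝ), Continuous h → Integrable h ν := by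
    intro ν _ h hh
    exact hh.integrable_of_hasCompactSupport (HasCompactSupport.of_compactSpace h)
  set F : Set X := {x | 0 < k x * b x} with hF
  have hFo : IsOpen F := isOpen_lt continuous_const (hkc.mul hbc)
  have hFm : MeasurableSet F := hFo.measurableSet
  set Z : Set X := {x | g x = 0} with hZ
  have hZm : MeasurableSet Z := (isClosed_eq hgc continuous_const).measurableSet
  have hnull : ∀ᵐ x ∂(T.M g g), x ∈ F ∨ x ∈ Z := by
    have h1 : ∀ᵐ x ∂(T.M g g), ¬ (x ∈ {x | D.d x < D.r1} ∧ g x < o x) := by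
      rw [ae_iff]
      simpa using hg5
    filter_upwards [h1] with x hx
    by_contra hcon
    push Not at hcon
    obtain ⟨hxF, hxZ⟩ := hcon
    have hkb : k x * b x = 0 := le_antisymm (not_lt.1 hxF) (hkb0 x)
    have hox : o x = 0 := by
      show -(D.e0 * D.q x) * (k x * b x) = 0
      rw [hkb, mul_zero]
    apply hx
    constructor
    · by_contra hx2
      exact hxZ (hoff x hx2)
    · rw [hox]
      exact lt_of_le_of_ne (hg0 x) hxZ
  obtain ⟨m, hm⟩ : ∃ m, m = (T.M g g).real F := ⟨_, rfl⟩
  have hm0 : 0 ≤ m := by rw [hm]; exact measureReal_nonneg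
  -- contact with 0
  have hcon : ∀ B, MeasurableSet B → B ⊆ Z → (T.M g g).real B ≤ (T.M (fun _ => 0) (fun _ => 0)).real B := by
    intro B hB hBZ
    exact (h3 X T g hg _ h0).2 univ isOpen_univ (fun x _ => hg0 x) B hB (subset_univ _) (fun x hx => hBZ hx)
  -- bound of m
  have hN0 : 0 < N := by linarith
  have hVB : m ≤ (T.M (fun _ => 0) (fun _ => 0)).real {x | f x ≤ -(N / 2)} +
        (6 / N) * (T.M f (fun _ => 0)).real {x | f x ≤ -(N / 2)} + 9 * T.V / N ^ 2 := by
    obtain ⟨t, ht⟩ : ∃ t, t = 3 * D.e0 / N := ⟨_, rfl⟩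
    have ht0 : 0 ≤ t := by rw [ht]; positivity
    have htN : t * N = 3 * D.e0 := by rw [ht]; field_simp
    have ht3 : t ≤ 3 / N := by
      rw [ht]
      apply div_le_div_of_nonneg_right _ hN0.le
      linarith [D.e0_le]
    have ht1 : t ≤ 1 := by
      refine ht3.trans ?_
      rw [div_le_one hN0]
      linarith
    obtain ⟨w0, hw0d⟩ : ∃ w0 : X → ℝ, w0 = fun x => (1 - t) * (fun _ : X => (0 : ℝ)) x + t * f x := ⟨_, rfl⟩
    have hw0 : w0 ∈ T.C0 := by
      rw [hw0d]; exact T.conv_mem _ h0 f hf t ht0 ht1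
    have hw0e : ∀ x, w0 x = t * f x := by intro x; rw [hw0d]; ring
    have hw : (fun x => w0 x + t * (N / 2)) ∈ T.C0 := T.add_const w0 hw0 _
    have hFw : F ⊆ {x | w0 x + t * (N / 2) < g x} := by
      intro x hx
      have hkpos : 0 < k x := by
        rcases (hk0 x).lt_or_eq with h | h
        · exact h
        · exfalso
          have : 0 < k x * b x := hx
          rw [← h, zero_mul] at this
          exact lt_irrefl _ this
      have hkf : f x < -N + 1 := by
        by_contra hc
        push Not at hc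
        have : k x ≤ 0 := by
          show min 1 (max 0 (-N + 1 - f x)) ≤ 0
          apply min_le_of_right_le
          apply max_le le_rfl
          linarith
        linarith
      show w0 x + t * (N / 2) < g x
      rw [hw0e]
      have h1 : t * f x ≤ t * (-N + 1) := mul_le_mul_of_nonneg_left hkf.le ht0
      have h2 := hge x
      have h4 : t * 6 < 3 * D.e0 := by
        have htpos : 0 < t := by rw [ht]; positivity
        rw [← htN]
        exact mul_lt_mul_of_pos_left hN htpos
      nlinarith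
    have hc := (h3 X T _ hw g hg).1
    have hfinw : IsFiniteMeasure (T.M (fun x => w0 x + t * (N / 2)) (fun x => w0 x + t * (N / 2))) :=
      T.fin _ hw _ hw
    have e1 : m ≤ (T.M (fun x => w0 x + t * (N / 2)) (fun x => w0 x + t * (N / 2))).real
        {x | f x ≤ -(N / 2)} := by
      rw [hm]
      refine (measureReal_mono hFw (measure_ne_top _ _)).trans (hc.trans ?_)
      apply measureReal_mono _ (measure_ne_top _ _)
      intro x hx
      have h1 : w0 x + t * (N / 2) ≤ g x := hx
      rw [hw0e] at h1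
      have h2 := hg0 x
      have htpos : 0 < t := by rw [ht]; positivity
      show f x ≤ -(N / 2)
      by_contra hcc
      push Not at hcc
      nlinarith
    have hBm : MeasurableSet {x | f x ≤ -(N / 2)} :=
      (isClosed_le hfc continuous_const).measurableSet
    have e2 : T.M (fun x => w0 x + t * (N / 2)) (fun x => w0 x + t * (N / 2)) = T.M w0 w0 := by
      rw [T.const w0 hw0 _ hw, T.symm w0 hw0 _ hw, T.const w0 hw0 _ hw0]
    have e3 : (T.M w0 w0).real {x | f x ≤ -(N / 2)} =
        (1 - t) * (T.M (fun _ => 0) w0).real {x | f x ≤ -(N / 2)} +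
          t * (T.M f w0).real {x | f x ≤ -(N / 2)} := by
      have := T.aff (fun _ => 0) h0 f hf w0 hw0 t ht0 ht1 _ hBm
      rw [← this]
      congr 2
    have e4 : (T.M (fun _ => 0) w0).real {x | f x ≤ -(N / 2)} =
        (1 - t) * (T.M (fun _ => 0) (fun _ => 0)).real {x | f x ≤ -(N / 2)} +
          t * (T.M f (fun _ => 0)).real {x | f x ≤ -(N / 2)} := by
      have := T.aff (fun _ => 0) h0 f hf (fun _ => 0) h0 t ht0 ht1 _ hBm
      rw [← this, T.symm _ h0 _ hw0]
      congr 2
    have e5 : (T.M f w0).real {x | f x ≤ -(N / 2)} =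
        (1 - t) * (T.M f (fun _ => 0)).real {x | f x ≤ -(N / 2)} +
          t * (T.M f f).real {x | f x ≤ -(N / 2)} := by
      have := T.aff (fun _ => 0) h0 f hf f hf t ht0 ht1 _ hBm
      rw [T.symm _ h0 _ hf] at this
      rw [← this, T.symm _ hf _ hw0]
      congr 2
    have hfinff : IsFiniteMeasure (T.M f f) := T.fin f hf f hf
    have e6 : (T.M f f).real {x | f x ≤ -(N / 2)} ≤ T.V := by
      rw [← T.mass f hf f hf]
      exact measureReal_mono (subset_univ _) (measure_ne_top _ _)
    have p1 : 0 ≤ (T.M (fun _ => 0) (fun _ => 0)).real {x | f x ≤ -(N / 2)} := measureReal_nonneg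
    have p2 : 0 ≤ (T.M f (fun _ => 0)).real {x | f x ≤ -(N / 2)} := measureReal_nonneg
    have p3 : 0 ≤ (T.M f f).real {x | f x ≤ -(N / 2)} := measureReal_nonneg
    rw [e2, e3, e4, e5] at e1
    have hV := T.V_pos
    have q1 : t ^ 2 * T.V ≤ 9 * T.V / N ^ 2 := by
      have : t ^ 2 ≤ (3 / N) ^ 2 := pow_le_pow_left₀ ht0 ht3 2
      calc t ^ 2 * T.V ≤ (3 / N) ^ 2 * T.V := mul_le_mul_of_nonneg_right this hV.le
        _ = 9 * T.V / N ^ 2 := by ring
    have q2 : 2 * t * (T.M f (fun _ => 0)).real {x | f x ≤ -(N / 2)} ≤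
        (6 / N) * (T.M f (fun _ => 0)).real {x | f x ≤ -(N / 2)} := by
      apply mul_le_mul_of_nonneg_right _ p2
      calc 2 * t ≤ 2 * (3 / N) := by linarith
        _ = 6 / N := by ring
    have q3 : t ^ 2 * (T.M f f).real {x | f x ≤ -(N / 2)} ≤ t ^ 2 * T.V :=
      mul_le_mul_of_nonneg_left e6 (by positivity)
    have q4 : (1 - t) ^ 2 * (T.M (fun _ => 0) (fun _ => 0)).real {x | f x ≤ -(N / 2)} ≤
        1 * (T.M (fun _ => 0) (fun _ => 0)).real {x | f x ≤ -(N / 2)} := by
      apply mul_le_mul_of_nonneg_right _ p1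
      nlinarith
    have q5 : 2 * t * (1 - t) * (T.M f (fun _ => 0)).real {x | f x ≤ -(N / 2)} ≤
        2 * t * (T.M f (fun _ => 0)).real {x | f x ≤ -(N / 2)} := by
      apply mul_le_mul_of_nonneg_right _ p2
      nlinarith
    nlinarith
  -- the integral of -g
  have hI : Integrable (fun x => -(g x)) (T.M g g) := hint _ _ hgc.neg
  have hgm : ∫ x, -(g x) ∂T.M g g ≤ m := by
    have h1 : ∫ x, -(g x) ∂T.M g g ≤ ∫ x, F.indicator (fun _ => (1 : ℝ)) x ∂T.M g g := by
      apply integral_mono_ae hI
      · exact (integrable_const _).indicator hFm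
      · filter_upwards [hnull] with x hx
        by_cases hxF : x ∈ F
        · rw [indicator_of_mem hxF]
          have := hge x
          have := D.e0_le
          linarith
        · rw [indicator_of_notMem hxF]
          have : g x = 0 := hx.resolve_left hxF
          rw [this]; simp
    refine h1.trans ?_
    rw [integral_indicator hFm, setIntegral_const, smul_eq_mul, mul_one, hm]
  -- fixed Λ
  have hΛ : ∀ Λ : ℝ, 1 ≤ Λ → ∫ x, -(g x) ∂T.M (soft cd.S Λ) (fun _ => 0) ≤ (A * N + 3) * m := by
    intro Λ hΛ1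
    have hs := cd.soft_mem Λ hΛ1
    have hsc := T.cont _ hs
    have hf1 : IsFiniteMeasure (T.M (soft cd.S Λ) (fun _ => 0)) := T.fin _ hs _ h0
    have hf2 : IsFiniteMeasure (T.M (soft cd.S Λ) g) := T.fin _ hs _ hg
    have hf3 : IsFiniteMeasure (T.M (fun _ => 0) g) := T.fin _ h0 _ hg
    have s1 := T.stokes _ h0 g hg _ h0 _ hs
    have s2 := T.stokes _ h0 g hg g hg _ hs
    have s3 : T.M g (fun _ => 0) = T.M (fun _ => 0) g := T.symm g hg _ h0
    have en1 := T.energy g hg _ h0
    have en2 := T.energy g hg g hg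
    have hpos : 0 ≤ ∫ x, -(g x) ∂T.M (soft cd.S Λ) g :=
      integral_nonneg (fun x => by have := hg0 x; show 0 ≤ -(g x); linarith)
    have hexp : Real.exp (-2 * Λ) ≤ Real.exp (-2) := Real.exp_le_exp.2 (by linarith)
    have hexp2 : Real.exp (-2) < 1 / 2 := by
      have h1 : (2 : ℝ) < Real.exp 2 := by
        have := Real.add_one_lt_exp (x := 2) (by norm_num)
        linarith
      rw [Real.exp_neg, one_div]
      exact inv_strictAnti₀ (by norm_num) h1
    have hlint := F7_int (T.M g g) (T.M (fun _ => 0) (fun _ => 0)) F Z hFm hZm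
      (fun x => -(soft cd.S Λ x)) (A * N + 1) (by
        intro x
        show 0 ≤ -((1 / 2) * Real.log (cd.S x + Real.exp (-2 * Λ)))
        have h1 : Real.log (cd.S x + Real.exp (-2 * Λ)) ≤ 0 := by
          apply Real.log_nonpos
          · have := cd.S_nonneg x
            have := Real.exp_pos (-2 * Λ)
            linarith
          · have := cd.S_le x
            linarith
        linarith) (by
        intro x hx
        show -((1 / 2) * Real.log (cd.S x + Real.exp (-2 * Λ))) ≤ A * N + 1
        have hbpos : 0 < b x := by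
          rcases (hb0 x).lt_or_eq with h | h
          · exact h
          · exfalso
            have : 0 < k x * b x := hx
            rw [← h, mul_zero] at this
            exact lt_irrefl _ this
        have h1 : 0 < A * N + 1 + (1 / 2) * Real.log (max (cd.S x) E) := by
          by_contra hc
          push Not at hc
          have : b x ≤ 0 := by
            show min 1 (max 0 (A * N + 1 + (1 / 2) * Real.log (max (cd.S x) E))) ≤ 0
            exact min_le_of_right_le (max_le le_rfl hc)
          linarith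
        have hS : E < cd.S x := by
          by_contra hc
          push Not at hc
          rw [max_eq_right hc] at h1
          have : Real.log E = -2 * (A * N + 1) := Real.log_exp _
          rw [this] at h1
          linarith
        rw [max_eq_left hS.le] at h1
        have h2 : Real.log (cd.S x) ≤ Real.log (cd.S x + Real.exp (-2 * Λ)) := by
          apply Real.log_le_log (hE.trans hS)
          have := Real.exp_pos (-2 * Λ)
          linarith
        linarith)
      (hint _ _ hsc.neg) (hint _ _ hsc.neg) hnull hcon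
    rw [integral_neg, integral_neg] at hlint
    rw [← hm] at hlint
    have t1 : ∫ x, ((fun _ => (0 : ℝ)) x - g x) ∂T.M (soft cd.S Λ) (fun _ => 0) =
        ∫ x, -(g x) ∂T.M (soft cd.S Λ) (fun _ => 0) := by
      congr 1; ext x; ring
    have t2 : ∫ x, ((fun _ => (0 : ℝ)) x - g x) ∂T.M (soft cd.S Λ) g =
        ∫ x, -(g x) ∂T.M (soft cd.S Λ) g := by
      congr 1; ext x; ring
    have t3 : ∫ x, ((fun _ => (0 : ℝ)) x - g x) ∂T.M (fun _ => 0) (fun _ => 0) =
        -∫ x, g x ∂T.M (fun _ => 0) (fun _ => 0) := by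
      rw [← integral_neg]
      congr 1; ext x; ring
    have t4 : ∫ x, ((fun _ => (0 : ℝ)) x - g x) ∂T.M (fun _ => 0) g =
        -∫ x, g x ∂T.M (fun _ => 0) g := by
      rw [← integral_neg]
      congr 1; ext x; ring
    rw [t1, t3] at s1
    rw [t2, t4] at s2
    rw [s3] at s1 en1
    have hgm' : -∫ x, g x ∂T.M g g ≤ m := by
      rw [← integral_neg]; exact hgm
    nlinarith
  -- limit
  have hlim := cd.PL (fun x => -(g x)) hgc.neg
  have hfinal : ∫ x, -(g x) ∂μ ≤ (A * N + 3) * m := by
    apply le_of_tendsto hlim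
    filter_upwards [eventually_ge_atTop (1 : ℝ)] with Λ hΛ1
    exact hΛ Λ hΛ1
  refine hfinal.trans ?_
  exact mul_le_mul_of_nonneg_left hVB (by linarith)

end MAP

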